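import Pool.Agent.Helper147.HM.W7

/-!
# The Hopf sign for sums of strongly nonpositive pieces, skew forms of arbitrary rank and a
nonpositive curvature operator

`PieceSkew k l δ R` says: `R` is the sum of

* `k` algebraic curvature tensors, each living on some subspace, either of dimension at most four
  and with nonpositive sectional curvatures, or of dimension at most five and strongly nonpositive;
* the negatives of the curvature tensors `skewCurv B` of `l` skew forms `B` of arbitrary rank, where
  `skewCurv B` is `2 B(x,y) B(z,w) + B(x,z) B(y,w) - B(x,w) B(y,z)`, with sectional curvatures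
  `3 B(x,y)²`;
* an algebraic curvature tensor whose curvature operator is at most `-δ`.

The subspaces and the forms are in arbitrary position to each other.

(1) For given `k` and `l`, the inequality that `(-1)^m` times the Gauss–Bonnet–Chern integrand of `R`
is at least its value for constant curvature `-δ` holds for all such `R` in all even dimensions `2 m`
if and only if `k + l ≤ 2`. The case `k = l = 1` is new; it contains for instance the sum of the
curvature tensor of a complex hyperbolic space of any dimension and of any tensor of nonpositive
sectional curvature on a subspace of dimension four.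
(2), (3) The integrated forms, for fields of curvature tensors, in the case `k = l = 1`.

The proof of the case `k = l = 1` (`Pool/Agent/Helper147/HM/`, over the algebra of
`Pool/Agent/Y195/HF/`): the power of the invariant of the skew form is an average over the rotations
of `SL(2)`; the invariance of the other factors under the rotations about the axis of the skew form
turns the term which is linear in the piece into a square minus a mixed term of two different
degrees, and this one is at most the geometric mean of the two other terms, by the
inequality of Chern and Milnor for the square of the piece on the four-dimensional subspaces.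
-/

set_option autoImplicit false

namespace Pool.Agent.Results.MP_5a30bb_gt.PieceAndSkewForm

open Pool.Agent.W666.GB Pool.Agent.W669.HD Pool.Agent.Y195.HF Pool.Agent.Helper147.HM

theorem result :
    (∀ k l : ℕ, (∀ (m : ℕ) (V : Type) [NormedAddCommGroup V] [InnerProductSpace ℝ V]
      (e : OrthonormalBasis (Fin m × Bool) ℝ V) (R : V → V → V → V → ℝ) (δ : ℝ),
      0 ≤ δ → PieceSkew k l δ R → roundGB m δ ≤ (-1) ^ m * gbc e R) ↔ k + l ≤ 2) ∧
    (∀ (m : ℕ) (M : Type) [MeasurableSpace M] (μ : MeasureTheory.Measure M) (K : CurvField m M),
      (∀ p, PieceSkew 1 1 0 (K.R p)) → 0 ≤ (-1) ^ m * ∫ p, K.gb p ∂μ) ∧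
    (∀ (m : ℕ) (M : Type) [MeasurableSpace M] (μ : MeasureTheory.Measure M)
      [MeasureTheory.IsFiniteMeasure μ] (K : CurvField m M) (δ : ℝ),
      MeasureTheory.Integrable K.gb μ → 0 ≤ δ → (∀ p, PieceSkew 1 1 δ (K.R p)) →
        roundGB m δ * μ.real Set.univ ≤ (-1) ^ m * ∫ p, K.gb p ∂μ) :=
  ⟨ps_iff, fun _ _ _ μ K h => field_ps μ K h,
    fun _ _ _ μ _ K _ hi hδ h => field_psδ μ K hi hδ h⟩

end Pool.Agent.Results.MP_5a30bb_gt.PieceAndSkewForm
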