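import Pool.Agent.Helper169.HS.Final

/-!
# The Hopf sign from sectional pinching in every even dimension, stronger on one hyperplane only

Let `n = 2 m`. `HyperPinched m R κ`: all sectional curvatures of `R` lie in `[-b, -a]` with
`a ≤ b ≤ 4 a`, `κ = (4 a - b) / 3`, and on ONE hyperplane they lie in `[-B, -A]` with
`(n - 4) B ≤ (n - 1) A`.

(1) If `R` is `HyperPinched m R κ`, then `(-1)^m` times the Gauss–Bonnet–Chern integrand is at least
its value for constant curvature `-κ`.
(2) For `m ≥ 3` all `R` with sectional curvatures in `[-b, -a]`, `(n - 4) b ≤ (n - 1) a`, are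
`HyperPinched` with `κ = (4 a - b) / 3`, and `κ > 0` if `a > 0`.
(3) For `m ≥ 1` there are tensors with sectional curvatures in `[-(n - 1), -(n - 4)]` whose curvature
operator is not nonpositive.
(4) The integrated forms.

The nonpositivity of the curvature operator itself needs the pinching `(n - 2) / (n + 1)`
(Bourguignon and Karcher). The proof bounds the complex sectional curvatures by the sectional ones,
and combines `HyperplaneOperator` (a result of the starting repository) with the argument of
Bourguignon and Karcher in a hyperplane, whose two-forms have rank at most `n - 2`.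
-/

set_option autoImplicit false

namespace Pool.Agent.Results.MP_5a30bb_gt.SectionalPinching

open MeasureTheory
open Pool.Agent.W666.GB Pool.Agent.TH598.GV Pool.Agent.Helper169.HS

/-- The Hopf sign from sectional curvature pinching, stronger on one hyperplane only. -/
theorem result :
    -- (1) the pointwise inequality
    (∀ (m : ℕ) (V : Type) [NormedAddCommGroup V] [InnerProductSpace ℝ V]
      (e : OrthonormalBasis (Fin m × Bool) ℝ V) (R : V → V → V → V → ℝ) (κ : ℝ), AlgCurv R →
      HyperPinched m R κ → 0 ≤ κ ∧ roundGB m κ ≤ (-1) ^ m * gbc e R) ∧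
    -- (2) uniform pinching `(n - 4) / (n - 1)`
    (∀ (m : ℕ) (V : Type) [NormedAddCommGroup V] [InnerProductSpace ℝ V]
      (_ : OrthonormalBasis (Fin m × Bool) ℝ V) (R : V → V → V → V → ℝ) (a b : ℝ), 3 ≤ m →
      SecIn R (-b) (-a) → (2 * m - 4) * b ≤ (2 * m - 1) * a →
        0 ≤ a ∧ HyperPinched m R ((4 * a - b) / 3) ∧ (0 < a → 0 < (4 * a - b) / 3)) ∧
    -- (3) the curvature operator need not be nonpositive
    (∀ (m : ℕ) (V : Type) [NormedAddCommGroup V] [InnerProductSpace ℝ V]
      (_ : OrthonormalBasis (Fin m × Bool) ℝ V), 1 ≤ m → ∃ R : V → V → V → V → ℝ, AlgCurv R ∧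
        SecIn R (-(2 * m - 1)) (-(2 * m - 4)) ∧ ¬ OpNonposOn R ⊤) ∧
    -- (4) the integrated forms
    (∀ (m : ℕ) (M : Type) [MeasurableSpace M] (μ : Measure M) (K : CurvField m M) (κ : M → ℝ),
      (∀ p, HyperPinched m (K.R p) (κ p)) →
        0 ≤ (-1) ^ m * ∫ p, K.gb p ∂μ ∧
        (Integrable K.gb μ → Integrable (fun p => roundGB m (κ p)) μ →
          ∫ p, roundGB m (κ p) ∂μ ≤ (-1) ^ m * ∫ p, K.gb p ∂μ) ∧
        (Integrable K.gb μ → μ {p | 0 < κ p} ≠ 0 → 0 < (-1) ^ m * ∫ p, K.gb p ∂μ)) :=
  ⟨fun _ _ _ _ e _ _ hR h => point_pinched e hR h,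
    fun _ _ _ _ e _ _ _ hm hs hp => hyper_of_unif e hm hs hp,
    fun _ _ _ _ e hm => ⟨exR e, exR_curv e, exR_sec e, exR_not e hm⟩,
    fun _ _ _ μ K κ h => field_pinched μ K κ h⟩

end Pool.Agent.Results.MP_5a30bb_gt.SectionalPinching
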