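import Pool.Agent.Helper169.HS.Ex2

/-!
# The Hopf sign when the curvature operator has a small positive part

Let `n = 2 m`. `SmallPositive e R`: the curvature operator of `R` is at most `-μ + ∑ A s ⊗ A s` for
some two-forms `A s` of any rank with `(m - 1) ∑ |A s|² ≤ m μ`; in terms of its eigenvalues:
`(m - 1) ∑ (λ i + μ)₊ ≤ m μ` for some `μ`, for instance `(m - 1) λ₁ + λ₂ ≤ 0`.

(1) If all complex sectional curvatures of `R` are at most `-κ`, `κ ≥ 0`, and `SmallPositive e R`, then
`(-1)^m` times the Gauss–Bonnet–Chern integrand is at least its value for constant curvature `-κ`; it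
is positive if the complex sectional curvatures are negative.
(2) If all sectional curvatures of `R` lie in `[-b, -a]`, `a ≤ b`, then all complex sectional
curvatures are at most `-(4 a - b) / 3`; so the first hypothesis of (1) holds for quarter-pinched
negative sectional curvature.
(3) For every `m ≥ 1` there are tensors with complex sectional curvatures at most `-(2 m - 5)` and
`SmallPositive e R` whose curvature operator is not nonpositive.
(4) The integrated forms.

The classical hypothesis is that the curvature operator is nonpositive (`λ₁ ≤ 0`). The proof finds,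
by averaging over the hyperplanes of an orthonormal basis, a hyperplane on whose bivectors the
operator is nonpositive, and uses `HyperplaneOperator` (a result of the starting repository).
-/

set_option autoImplicit false

namespace Pool.Agent.Results.MP_5a30bb_gt.SmallPositivePart

open MeasureTheory
open Pool.Agent.W666.GB Pool.Agent.TH598.GV Pool.Agent.Helper169.HS

/-- The Hopf sign for a curvature operator with a small positive part. -/
theorem result :
    -- (1) the pointwise inequality
    (∀ (m : ℕ) (V : Type) [NormedAddCommGroup V] [InnerProductSpace ℝ V]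
      (e : OrthonormalBasis (Fin m × Bool) ℝ V) (R : V → V → V → V → ℝ), 1 ≤ m → AlgCurv R →
      SmallPositive e R →
        (∀ κ : ℝ, 0 ≤ κ → CxNonpos (shiftT R κ) → roundGB m κ ≤ (-1) ^ m * gbc e R) ∧
        (CxNeg R → 0 < (-1) ^ m * gbc e R)) ∧
    -- (2) the complex sectional curvatures and the sectional curvatures
    (∀ (V : Type) [NormedAddCommGroup V] [InnerProductSpace ℝ V] (R : V → V → V → V → ℝ)
      (a b : ℝ), AlgCurv R → a ≤ b → SecIn R (-b) (-a) →
        CxNonpos (shiftT R ((4 * a - b) / 3))) ∧
    -- (3) the curvature operator need not be nonpositive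
    (∀ (m : ℕ) (V : Type) [NormedAddCommGroup V] [InnerProductSpace ℝ V]
      (e : OrthonormalBasis (Fin m × Bool) ℝ V), 1 ≤ m → ∃ R : V → V → V → V → ℝ, AlgCurv R ∧
        SmallPositive e R ∧ CxNonpos (shiftT R (2 * m - 5)) ∧ ¬ OpNonposOn R ⊤) ∧
    -- (4) the integrated forms
    (∀ (m : ℕ) (M : Type) [MeasurableSpace M] (μ : Measure M) (K : CurvField m M) (κ : M → ℝ),
      1 ≤ m →
      (∀ p, 0 ≤ κ p ∧ CxNonpos (shiftT (K.R p) (κ p)) ∧ SmallPositive (K.e p) (K.R p)) →
        0 ≤ (-1) ^ m * ∫ p, K.gb p ∂μ ∧
        (Integrable K.gb μ → Integrable (fun p => roundGB m (κ p)) μ →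
          ∫ p, roundGB m (κ p) ∂μ ≤ (-1) ^ m * ∫ p, K.gb p ∂μ) ∧
        (Integrable K.gb μ → μ {p | CxNeg (K.R p)} ≠ 0 → 0 < (-1) ^ m * ∫ p, K.gb p ∂μ)) :=
  ⟨fun _ _ _ _ e _ hm hR h => point_small e hm hR h,
    fun _ _ _ _ _ _ hR hab hs => cx_nonpos hR hab hs,
    fun _ _ _ _ e hm => ⟨exR e, exR_curv e, exR_small e, exR_cx e, exR_not e hm⟩,
    fun _ _ _ μ K κ hm h => field_small hm μ K κ h⟩

end Pool.Agent.Results.MP_5a30bb_gt.SmallPositivePart
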