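import Pool.Agent.Helper147.HT.T9

/-!
# The Hopf sign for curvature tensors with the symmetry of three quarter turns

Let `e` be an orthonormal basis of a Euclidean space of dimension six, indexed by `Fin 3 × Bool`, and
let the plane `k` be spanned by `e (k, false)`, `e (k, true)`. `QuarterInv e R` says that the
algebraic curvature tensor `R` is invariant under the quarter turn of each of the three planes; this
holds for instance if `R` is invariant under a maximal torus of the rotation group, as at a fixed
point of an isometric action of a torus of rank three. `SecFour e δ R` (`SecFourPos e δ R`): the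
sectional curvatures of `R` on the three sums of two of the planes are at most `-δ` (at least `δ`).

`TurnBlocks δ R`, in a Euclidean space of dimension `2 m`: `R` is the sum of algebraic curvature
tensors of nonpositive sectional curvature on pairwise orthogonal blocks, each block of dimension at
most five or of dimension six with a tensor with `QuarterInv`, minus squares `(x ∧ y)²` with `x` in
one block and `y` in one block, minus `δ` times the unit tensor.

(1) In dimension six, for an orthonormal basis `e'`: if `R` satisfies `QuarterInv e` and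
`SecFour e δ`, then minus the Gauss–Bonnet–Chern integrand of `R` is at least its absolute value for
constant curvature `-δ`; if it satisfies `QuarterInv e` and `SecFourPos e δ`, then the integrand is at
least its value for constant curvature `δ`.
(2) In every dimension `2 m`, if `R` satisfies `TurnBlocks δ`, then `(-1)^m` times the integrand is at
least its value for constant curvature `-δ`.
(3), (4) The integrated forms.
(5) The hypothesis of (1) does not imply that the sectional curvatures are nonpositive.

The proof (`Pool/Agent/Helper147/HT/`): the invariant tensors have nine parameters, `a k`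
(curvatures of the planes), `b k`, `c k` (one of each for every pair of planes), and the integrand is
a positive multiple of `a₀ a₁ a₂ + 2 ∑ a k (c k² + 3 b k²) + 8 (c₀ c₁ c₂ + 3 b₀ b₁ b₂)`. The curvature
hypothesis says `3 |b k| ≤ c k + √(a i a j)`, and this makes the cubic form nonnegative. For (2) the
result on block sums of the starting repository (`Pool/Agent/Y519/HB/`) is used.
-/

set_option autoImplicit false

namespace Pool.Agent.Results.MP_5a30bb_gt.ThreeQuarterTurns

open Pool.Agent.W666.GB Pool.Agent.W669.HD Pool.Agent.Helper147.HT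

theorem result :
    (∀ (V : Type) [NormedAddCommGroup V] [InnerProductSpace ℝ V]
      (e e' : OrthonormalBasis (Fin 3 × Bool) ℝ V) (R : V → V → V → V → ℝ) (δ : ℝ),
      AlgCurv R → 0 ≤ δ → QuarterInv e R →
        (SecFour e δ R → roundGB 3 δ ≤ (-1) ^ 3 * gbc e' R) ∧
        (SecFourPos e δ R → roundGB 3 δ ≤ gbc e' R)) ∧
    (∀ (m : ℕ) (V : Type) [NormedAddCommGroup V] [InnerProductSpace ℝ V]
      (e : OrthonormalBasis (Fin m × Bool) ℝ V) (R : V → V → V → V → ℝ) (δ : ℝ),
      0 ≤ δ → TurnBlocks δ R → roundGB m δ ≤ (-1) ^ m * gbc e R) ∧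
    (∀ (M : Type) [MeasurableSpace M] (μ : MeasureTheory.Measure M)
      [MeasureTheory.IsFiniteMeasure μ] (K : CurvField 3 M) (δ : ℝ),
      MeasureTheory.Integrable K.gb μ → 0 ≤ δ →
        ((∀ p, ∃ e : OrthonormalBasis (Fin 3 × Bool) ℝ (K.V p),
            QuarterInv e (K.R p) ∧ SecFour e δ (K.R p)) →
          roundGB 3 δ * μ.real Set.univ ≤ (-1) ^ 3 * ∫ p, K.gb p ∂μ) ∧
        ((∀ p, ∃ e : OrthonormalBasis (Fin 3 × Bool) ℝ (K.V p),
            QuarterInv e (K.R p) ∧ SecFourPos e δ (K.R p)) →
          roundGB 3 δ * μ.real Set.univ ≤ ∫ p, K.gb p ∂μ)) ∧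
    (∀ (m : ℕ) (M : Type) [MeasurableSpace M] (μ : MeasureTheory.Measure M)
      [MeasureTheory.IsFiniteMeasure μ] (K : CurvField m M) (δ : ℝ),
      MeasureTheory.Integrable K.gb μ → 0 ≤ δ → (∀ p, TurnBlocks δ (K.R p)) →
        roundGB m δ * μ.real Set.univ ≤ (-1) ^ m * ∫ p, K.gb p ∂μ) ∧
    (∃ (e : OrthonormalBasis (Fin 3 × Bool) ℝ (EuclideanSpace ℝ (Fin 3 × Bool)))
      (R : EuclideanSpace ℝ (Fin 3 × Bool) → EuclideanSpace ℝ (Fin 3 × Bool) →
        EuclideanSpace ℝ (Fin 3 × Bool) → EuclideanSpace ℝ (Fin 3 × Bool) → ℝ),
      AlgCurv R ∧ QuarterInv e R ∧ SecFour e 0 R ∧ ∃ x y, 0 < R x y x y) :=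
  ⟨fun _ _ _ e e' _ _ hR hδ hI => ⟨fun h => six e e' hR hδ hI h,
      fun h => six_pos e e' hR hδ hI h⟩,
    fun _ _ _ _ e _ _ hδ h => blocks_bound e hδ h,
    fun _ _ μ hμ K _ hi hδ => ⟨fun h => field_neg μ K hμ hi hδ h,
      fun h => field_pos μ K hμ hi hδ h⟩,
    fun _ _ _ μ _ K _ hi hδ h => field_blocks' μ K hi hδ h,
    ex_pos⟩

end Pool.Agent.Results.MP_5a30bb_gt.ThreeQuarterTurns
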